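import Pool.Agent.H792R3.BB.PX
import Pool.Agent.H792R3.BB.TH
import Pool.Agent.H792R3.BB.LC
import Pool.Agent.H792R3.BB.TE
import Pool.Agent.H792R3.BB.CY
import Pool.Agent.H792R3.BB.AN
import Pool.Agent.H792R3.BB.LOW

/-!
`MP_4255df_an`: lower bound `0.585` for the Clunie-Hayman constant.  The function is
`f z = ∑ p ^ (k (k - 1) / 2) z ^ k` with the complex number
`p = (561 / 2000) (-429 + 460 i) / 629`.
-/

open Filter Topology

namespace Pool.Agent.Results.MP_4255df_an.LowerBound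

open Pool.Agent.H792R3.BB

/-- There is a transcendental entire function whose ratio (maximum term) / (maximum modulus) has
lower limit at least `0.585`. -/
theorem result : ∃ f : ℂ → ℂ, Differentiable ℂ f ∧
    (¬ ∃ p : Polynomial ℂ, ∀ z, f z = p.eval z) ∧
    (117 / 200 : ℝ) ≤ liminf (fun r : ℝ =>
      (⨆ n : ℕ, ‖iteratedDeriv n f 0 / (n.factorial : ℂ)‖ * r ^ n) /
        sSup ((fun z => ‖f z‖) '' Metric.sphere (0 : ℂ) r)) atTop :=
  ⟨ff, t_TE.1.1, t_TE.1.2, t_LOW (t_AN (t_LC (t_TH t_PX)) t_TE) t_TE t_CY⟩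

end Pool.Agent.Results.MP_4255df_an.LowerBound
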