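import Pool.Agent.H792R3.BB.CH
import Pool.Agent.H792R3.BB.GAP
import Pool.Agent.H792R3.BB.OS2
import Pool.Agent.H792R3.BB.QI
import Pool.Agent.H792R3.BB.PA
import Pool.Agent.H792R3.BB.ROT
import Pool.Agent.H792R3.BB.N3
import Pool.Agent.H792R3.BB.N4
import Pool.Agent.H792R3.BB.N6
import Pool.Agent.H792R3.BB.L4
import Pool.Agent.H792R3.BB.L6
import Pool.Agent.H792R3.BB.LA2
import Pool.Agent.H792R3.BB.TS
import Pool.Agent.H792R3.BB.LB2
import Pool.Agent.H792R3.BB.UP2
import Pool.Agent.H792R3.BB.UF2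
import Pool.Agent.H792R3.BB.CY

/-!
`MP_4255df_an`: upper bound `0.627` for the Clunie-Hayman constant (previously `2 / π = 0.6366`).

At a vertex of the Newton polygon whose left gap `e` is at most its right gap `d` one tests the
Hankel form of the Laurent coefficients on the frequencies `0, d, 2 d, 3 d, d + e, 2 d + e`; such
vertices exist infinitely often with `e < d`, or the gaps are eventually constant, in which case
a two-sided test function is used as well.
-/

open Filter Topology

namespace Pool.Agent.Results.MP_4255df_an.UpperBound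

open Pool.Agent.H792R3.BB

theorem lim_le (hUF : S_UF2) (hCY : S_CY) (f : ℂ → ℂ) (hf : TransEntire f) :
    liminf (fun r : ℝ => mu f r / maxMod f r) atTop ≤ 627 / 1000 := by
  refine Filter.liminf_le_of_frequently_le ?_ ?_
  · have h1 := hUF f hf
    have h2 : ∀ᶠ r : ℝ in atTop, 0 < r := eventually_gt_atTop 0
    refine (h1.and_eventually h2).mono ?_
    rintro r ⟨hr, hr0⟩
    obtain ⟨_, hmu, hle, _⟩ := hCY f hf r hr0
    have hM : 0 < maxMod f r := lt_of_lt_of_le hmu hle
    rw [div_le_iff₀ hM]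
    exact hr
  · refine ⟨0, ?_⟩
    rw [Filter.eventually_map]
    filter_upwards [eventually_gt_atTop (0 : ℝ)] with r hr0
    obtain ⟨_, hmu, hle, _⟩ := hCY f hf r hr0
    exact div_nonneg hmu.le (hmu.le.trans hle)

/-- For every transcendental entire function the ratio (maximum term) / (maximum modulus) has
lower limit at most `0.627`. -/
theorem result (f : ℂ → ℂ) (hf : Differentiable ℂ f)
    (hp : ¬ ∃ p : Polynomial ℂ, ∀ z, f z = p.eval z) :
    liminf (fun r : ℝ =>
      (⨆ n : ℕ, ‖iteratedDeriv n f 0 / (n.factorial : ℂ)‖ * r ^ n) /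
        sSup ((fun z => ‖f z‖) '' Metric.sphere (0 : ℂ) r)) atTop ≤ 627 / 1000 :=
  lim_le (t_UF2 (t_UP2 t_CH t_GAP t_OS2 (t_LA2 t_PA t_N4 t_N6 (t_L4 t_QI) (t_L6 t_QI t_ROT))
    (t_LB2 t_QI t_PA t_N3 (t_TS t_ROT)))) t_CY f ⟨hf, hp⟩

end Pool.Agent.Results.MP_4255df_an.UpperBound
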